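import Pool.Agent.Lib.MP_939494_pr.Eves

/-!
# MP_939494_pr : no simultaneous extinction of ancestral types

For every finite measure `Λ` on `[0,1]` without atom at `1` for which the Lambda-coalescent comes
down from infinity, almost surely no two distinct ancestral types of the Lambda Fleming-Viot
process have the same extinction time, and the process admits an infinite sequence of Eves.
-/

open MeasureTheory TopologicalSpace
open scoped ENNReal NNReal unitInterval
open Pool.Agent.Lib.MP_939494_pr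

namespace Pool.Agent.Results.MP_939494_pr.EveSequence

theorem result (Λ : Measure I) [IsFiniteMeasure Λ] (hΛ : Λ {1} = 0)
    (hC : ComesDownFromInfinity Λ) {Ω : Type*} [mΩ : MeasurableSpace Ω] (μ : Measure Ω)
    [IsProbabilityMeasure μ] (ℱ : Filtration ℝ≥0 mΩ) (ρ : ℝ≥0 → Ω → ProbabilityMeasure I)
    (h : IsLambdaFlemingViot Λ μ ℱ ρ) :
    μ (EventE ρ) = 0 ∧ ∀ᵐ ω ∂μ, ∃ e : ℕ → I, IsEveSequence (fun t => ρ t ω) e := by
  have hX : ∀ (W : Set I) (t : ℝ≥0) (ω : Ω), X ρ W t ω = 0 ↔ (ρ t ω : Measure I) W = 0 := by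
    intro W t ω
    unfold X
    exact measureReal_eq_zero_iff
  have hbasis : ∀ᵐ ω ∂μ, ∀ W ∈ countableBasis I, ∀ s ∈ QT, ∀ t ∈ QT, s ≤ t →
      X ρ W s ω = 0 → X ρ W t ω = 0 :=
    (ae_ball_iff (countable_countableBasis I)).2 fun W hW =>
      absorb_all h W (isOpen_of_mem_countableBasis hW).measurableSet
  have hfin : ∀ᵐ ω ∂μ, ∀ t ∈ QT, 0 < t → ∃ S : Set I, S.Finite ∧ (ρ t ω : Measure I) Sᶜ = 0 := by
    refine (ae_ball_iff QT_countable).2 fun t _ => ?_
    by_cases ht : 0 < t
    · filter_upwards [finite_support h hC t ht] with ω hω _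
      exact hω
    · exact ae_of_all _ fun ω h' => absurd h' ht
  have hgood : ∀ᵐ ω ∂μ, GoodPath fun t => ρ t ω := by
    filter_upwards [h.rightContinuous, hbasis, hfin] with ω h1 h2 h3
    refine ⟨h1, fun W hW s hs t ht hst h0 => ?_, h3⟩
    exact (hX W t ω).1 (h2 W hW s hs t ht hst ((hX W s ω).2 h0))
  have hAA : ∀ᵐ ω ∂μ, ∀ U ∈ countableBasis I, ∀ V ∈ countableBasis I, Disjoint U V →
      ω ∉ AA ρ U V ∧ ∃ n : ℕ, ω ∉ Al ρ U V (n : ℝ≥0) := by
    refine (ae_ball_iff (countable_countableBasis I)).2 fun U hU => ?_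
    refine (ae_ball_iff (countable_countableBasis I)).2 fun V hV => ?_
    by_cases hd : Disjoint U V
    · have hUm := (isOpen_of_mem_countableBasis hU).measurableSet
      have hVm := (isOpen_of_mem_countableBasis hV).measurableSet
      filter_upwards [AA_null h hΛ hC U V hUm hVm hd, not_forever h hΛ hC U V hUm hVm hd]
        with ω h1 h2 _
      exact ⟨h1, h2⟩
    · exact ae_of_all _ fun ω h' => absurd h' hd
  have hE : ∀ᵐ ω ∂μ, ω ∉ EventE ρ := by
    filter_upwards [hgood, hAA] with ω h1 h2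
    rintro ⟨x, y, hxy, hx, hy, heq⟩
    exact reduce h1 h2 x y hxy hx hy heq
  refine ⟨measure_eq_zero_iff_ae_notMem.2 hE, ?_⟩
  filter_upwards [hgood, hE, h.init] with ω h1 h2 h3
  exact eves h1 h3 h2

end Pool.Agent.Results.MP_939494_pr.EveSequence
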